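import Pool.Agent.E8helper29.Zn.Stm3

/-!
Project ZU, piece U8: zonotopes with random Gaussian generators.
-/

set_option autoImplicit false

namespace Pool.Agent.E8helper67.ZU

open MeasureTheory ProbabilityTheory Pool.Agent.Helper649.Zono Pool.Agent.E8helper29.Zn Filter
open scoped RealInnerProductSpace Nat NNReal

/-- the mean of the absolute value of a standard normal variable -/
noncomputable def mm : ℝ := ∫ x, |x| ∂(gaussianReal 0 1)

lemma int_abs : Integrable (fun x : ℝ => |x|) (gaussianReal 0 1) :=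
  memLp_abs_real833.integrable (by norm_num)

lemma mm_pos : 0 < mm := by
  have h0 : 0 ≤ mm := integral_nonneg fun x => abs_nonneg x
  rcases h0.lt_or_eq with h | h
  · exact h
  · exfalso
    have h1 : (fun x : ℝ => |x|) =ᵐ[gaussianReal 0 1] 0 :=
      (integral_eq_zero_iff_of_nonneg (fun x => abs_nonneg x) int_abs).1 h.symm
    have h2 := He_sq 1
    have h3 : ∫ x, He 1 x * He 1 x ∂(gaussianReal 0 1) = 0 := by
      rw [integral_congr_ae (g := fun _ => (0 : ℝ))]
      · simp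
      · filter_upwards [h1] with x hx
        have : x = 0 := by simpa using hx
        simp [He, HP, this]
    rw [h3] at h2
    norm_num at h2

lemma int_exp (θ : ℝ) : Integrable (fun x : ℝ => Real.exp (θ * x)) (gaussianReal 0 1) :=
  integrable_exp_mul_gaussianReal θ

lemma val_exp (θ : ℝ) : ∫ x, Real.exp (θ * x) ∂(gaussianReal 0 1) = Real.exp (θ ^ 2 / 2) := by
  have h := congrFun (mgf_id_gaussianReal (μ := 0) (v := 1)) θ
  simpa [mgf] using h

lemma int_exp_abs (θ : ℝ) :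
    Integrable (fun x : ℝ => Real.exp (θ * |x|)) (gaussianReal 0 1) := by
  refine ((int_exp θ).add (int_exp (-θ))).mono' (by fun_prop) (Eventually.of_forall fun x => ?_)
  rw [Real.norm_eq_abs, abs_of_pos (Real.exp_pos _), Pi.add_apply]
  have h1 := Real.exp_pos (θ * x)
  have h2 := Real.exp_pos (-θ * x)
  rcases abs_cases x with ⟨h, _⟩ | ⟨h, _⟩
  · rw [h]
    linarith
  · rw [h]
    have : θ * -x = -θ * x := by ring
    rw [this]
    linarith

lemma sum_exp_abs (θ : ℝ) : ∫ x, Real.exp (θ * |x|) ∂(gaussianReal 0 1) +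
    ∫ x, Real.exp (-θ * |x|) ∂(gaussianReal 0 1) = 2 * Real.exp (θ ^ 2 / 2) := by
  rw [← integral_add (int_exp_abs θ) (int_exp_abs (-θ))]
  have h1 : ∀ x : ℝ, Real.exp (θ * |x|) + Real.exp (-θ * |x|) =
      Real.exp (θ * x) + Real.exp (-θ * x) := by
    intro x
    rcases abs_cases x with ⟨h, _⟩ | ⟨h, _⟩
    · rw [h]
    · rw [h, add_comm]
      congr 2 <;> ring
  simp_rw [h1]
  rw [integral_add (int_exp θ) (int_exp (-θ)), val_exp, val_exp]
  rw [neg_sq]
  ring

/-- the centred absolute value is subgaussian -/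
lemma mgf_abs (θ : ℝ) : ∫ x, Real.exp (θ * (|x| - mm)) ∂(gaussianReal 0 1) ≤
    Real.exp (θ ^ 2) := by
  have h1 : ∀ x : ℝ, Real.exp (θ * (|x| - mm)) = Real.exp (θ * |x|) * Real.exp (-θ * mm) := by
    intro x
    rw [← Real.exp_add]
    congr 1
    ring
  simp_rw [h1]
  rw [integral_mul_const]
  have hI0 : 0 ≤ ∫ x, Real.exp (θ * |x|) ∂(gaussianReal 0 1) :=
    integral_nonneg fun x => (Real.exp_pos _).le
  have hJ : Real.exp (-θ * mm) ≤ ∫ x, Real.exp (-θ * |x|) ∂(gaussianReal 0 1) := by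
    have h2 := ConvexOn.map_integral_le (μ := gaussianReal 0 1) (s := Set.univ)
      (g := Real.exp) (f := fun x : ℝ => -θ * |x|) convexOn_exp Real.continuous_exp.continuousOn
      isClosed_univ (Eventually.of_forall fun _ => Set.mem_univ _) (int_abs.const_mul (-θ))
      (int_exp_abs (-θ))
    rw [integral_const_mul] at h2
    exact h2
  have h3 := sum_exp_abs θ
  set I := ∫ x, Real.exp (θ * |x|) ∂(gaussianReal 0 1) with hI
  set J := ∫ x, Real.exp (-θ * |x|) ∂(gaussianReal 0 1) with hJ'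
  have h4 : I * J ≤ Real.exp (θ ^ 2 / 2) ^ 2 := by
    have h5 : Real.exp (θ ^ 2 / 2) = (I + J) / 2 := by linarith
    rw [h5]
    nlinarith [sq_nonneg (I - J)]
  have h6 : Real.exp (θ ^ 2 / 2) ^ 2 = Real.exp (θ ^ 2) := by
    rw [← Real.exp_nat_mul]
    congr 1
    push_cast
    ring
  calc I * Real.exp (-θ * mm) ≤ I * J := mul_le_mul_of_nonneg_left hJ hI0
    _ ≤ _ := h4.trans_eq h6

section vec

variable {n : ℕ}

lemma map_one {y : E n} (hy : ‖y‖ = 1) :
    (stdGaussian (E n)).map (fun g => ⟪y, g⟫) = gaussianReal 0 1 := by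
  rw [map_inner]
  congr 1
  have : ‖y‖₊ = 1 := by
    ext
    simpa using hy
  rw [this, one_pow]

lemma vec_int {y : E n} (hy : ‖y‖ = 1) (θ : ℝ) :
    Integrable (fun g => Real.exp (θ * (|⟪y, g⟫| - mm))) (stdGaussian (E n)) := by
  have h1 : Integrable (fun x : ℝ => Real.exp (θ * (|x| - mm))) (gaussianReal 0 1) := by
    refine ((int_exp_abs θ).mul_const (Real.exp (-θ * mm))).congr
      (Eventually.of_forall fun x => ?_)
    change Real.exp (θ * |x|) * Real.exp (-θ * mm) = _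
    rw [← Real.exp_add]
    congr 1
    ring
  rw [← map_one hy] at h1
  have h2 := (integrable_map_measure (by fun_prop) (by fun_prop)).1 h1
  exact h2

lemma vec_val {y : E n} (hy : ‖y‖ = 1) (θ : ℝ) :
    ∫ g, Real.exp (θ * (|⟪y, g⟫| - mm)) ∂(stdGaussian (E n)) ≤ Real.exp (θ ^ 2) := by
  refine le_trans (le_of_eq ?_) (mgf_abs θ)
  rw [← map_one hy, integral_map (by fun_prop) (by fun_prop)]

lemma prod_eq {N : ℕ} (y : E n) (θ : ℝ) (G : Fin N → E n) :
    Real.exp (θ * (∑ j, |⟪y, G j⟫| - N * mm)) = ∏ j, Real.exp (θ * (|⟪y, G j⟫| - mm)) := by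
  rw [← Real.exp_sum, ← Finset.mul_sum, Finset.sum_sub_distrib]
  simp

lemma pi_int {N : ℕ} {y : E n} (hy : ‖y‖ = 1) (θ : ℝ) :
    Integrable (fun G : Fin N → E n => Real.exp (θ * (∑ j, |⟪y, G j⟫| - N * mm)))
      (Measure.pi fun _ : Fin N => stdGaussian (E n)) := by
  simp_rw [prod_eq]
  exact Integrable.fintype_prod fun _ => vec_int hy θ

lemma pi_val {N : ℕ} {y : E n} (hy : ‖y‖ = 1) (θ : ℝ) :
    ∫ G : Fin N → E n, Real.exp (θ * (∑ j, |⟪y, G j⟫| - N * mm))
      ∂(Measure.pi fun _ : Fin N => stdGaussian (E n)) ≤ Real.exp (N * θ ^ 2) := by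
  simp_rw [prod_eq]
  rw [integral_fintype_prod_eq_pow (fun g => Real.exp (θ * (|⟪y, g⟫| - mm))), Fintype.card_fin,
    Real.exp_nat_mul]
  exact pow_le_pow_left₀ (integral_nonneg fun _ => (Real.exp_pos _).le) (vec_val hy θ) N

/-- a sample with all the sums near to their means -/
lemma exists_sample {A N : ℕ} (y : Fin A → E n) (hy : ∀ i, ‖y i‖ = 1) (θ s : ℝ) (hθ : 0 < θ)
    (h : 2 * A * Real.exp (N * θ ^ 2) < Real.exp (θ * s)) :
    ∃ G : Fin N → E n, ∀ i, |∑ j, |⟪y i, G j⟫| - N * mm| ≤ s := by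
  set P := Measure.pi fun _ : Fin N => stdGaussian (E n) with hP
  set Φ : (Fin N → E n) → ℝ := fun G =>
    ∑ i, (Real.exp (θ * (∑ j, |⟪y i, G j⟫| - N * mm)) +
      Real.exp (-θ * (∑ j, |⟪y i, G j⟫| - N * mm))) with hΦ
  have hint : Integrable Φ P :=
    integrable_finsetSum _ fun i _ => (pi_int (hy i) θ).add (pi_int (hy i) (-θ))
  have hval : ∫ G, Φ G ∂P ≤ 2 * A * Real.exp (N * θ ^ 2) := by
    calc ∫ G, Φ G ∂P = ∑ i, ∫ G : Fin N → E n, (Real.exp (θ * (∑ j, |⟪y i, G j⟫| - N * mm)) +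
          Real.exp (-θ * (∑ j, |⟪y i, G j⟫| - N * mm))) ∂P :=
          integral_finsetSum _ fun i _ => (pi_int (hy i) θ).add (pi_int (hy i) (-θ))
      _ ≤ ∑ _i : Fin A, 2 * Real.exp (N * θ ^ 2) := by
          apply Finset.sum_le_sum
          intro i _
          rw [integral_add (pi_int (hy i) θ) (pi_int (hy i) (-θ))]
          have h1 := pi_val (N := N) (hy i) θ
          have h2 := pi_val (N := N) (hy i) (-θ)
          rw [neg_sq] at h2
          linarith
      _ = 2 * A * Real.exp (N * θ ^ 2) := by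
          rw [Finset.sum_const, Finset.card_univ, Fintype.card_fin, nsmul_eq_mul]
          ring
  obtain ⟨G, hG⟩ := exists_le_integral hint
  refine ⟨G, fun i => ?_⟩
  have hlt : Φ G < Real.exp (θ * s) := (hG.trans hval).trans_lt h
  have hterm : Real.exp (θ * (∑ j, |⟪y i, G j⟫| - N * mm)) +
      Real.exp (-θ * (∑ j, |⟪y i, G j⟫| - N * mm)) ≤ Φ G :=
    Finset.single_le_sum (f := fun i => Real.exp (θ * (∑ j, |⟪y i, G j⟫| - N * mm)) +
      Real.exp (-θ * (∑ j, |⟪y i, G j⟫| - N * mm))) (fun i _ => by positivity)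
      (Finset.mem_univ i)
  have h1 : Real.exp (θ * (∑ j, |⟪y i, G j⟫| - N * mm)) < Real.exp (θ * s) := by
    have := Real.exp_pos (-θ * (∑ j, |⟪y i, G j⟫| - N * mm))
    linarith
  have h2 : Real.exp (-θ * (∑ j, |⟪y i, G j⟫| - N * mm)) < Real.exp (θ * s) := by
    have := Real.exp_pos (θ * (∑ j, |⟪y i, G j⟫| - N * mm))
    linarith
  rw [Real.exp_lt_exp] at h1 h2
  rw [abs_le]
  constructor
  · nlinarith
  · nlinarith

end vec

theorem u8 (hN : StmNet) (hS : StmNS) : StmUA := by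
  have hm := mm_pos
  refine ⟨448 / mm ^ 2 + 1, by positivity, fun n ε hn hε hε2 => ?_⟩
  obtain ⟨A, y, hA, hy, hnet⟩ := hN n (ε / 4) hn (by positivity) (by linarith)
  set L := Real.log (1 / ε) with hL
  have hn' : (1 : ℝ) ≤ n := by exact_mod_cast hn
  have hexpL : Real.exp L = 1 / ε := Real.exp_log (by positivity)
  have h2e : 2 ≤ 1 / ε := by
    rw [le_div_iff₀ hε]
    linarith
  have hLlog : Real.log 2 ≤ L := Real.log_le_log (by norm_num) h2e
  have hL1 : 1 / 2 < L := lt_of_lt_of_le (by have := Real.log_two_gt_d9; linarith) hLlog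
  -- the number of the vectors
  set N := ⌈448 / mm ^ 2 * (n * (1 / ε) ^ 2 * L)⌉₊ with hNdef
  have hbig : 1 ≤ n * (1 / ε) ^ 2 * L := by
    have h1 : 4 ≤ (1 / ε) ^ 2 := by nlinarith
    have h2 : 4 ≤ n * (1 / ε) ^ 2 := by nlinarith
    nlinarith
  have hNge : 448 / mm ^ 2 * (n * (1 / ε) ^ 2 * L) ≤ N := Nat.le_ceil _
  have hNle : (N : ℝ) ≤ (448 / mm ^ 2 + 1) * n * (1 / ε) ^ 2 * L := by
    have h1 : (N : ℝ) < 448 / mm ^ 2 * (n * (1 / ε) ^ 2 * L) + 1 :=
      Nat.ceil_lt_add_one (by positivity)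
    nlinarith
  have hNpos : (0 : ℝ) < N := lt_of_lt_of_le (by positivity) hNge
  -- the size of the net
  have hAbd : 2 * (A : ℝ) < Real.exp (7 * n * L) := by
    obtain ⟨k, rfl⟩ : ∃ k, n = k + 1 := ⟨n - 1, by omega⟩
    rw [Nat.add_sub_cancel] at hA
    have h4 : (4 : ℝ) ≤ Real.exp (2 * L) := by
      have : (4 : ℝ) = Real.exp (2 * Real.log 2) := by
        rw [show (2 : ℝ) * Real.log 2 = Real.log 2 + Real.log 2 by ring, Real.exp_add,
          Real.exp_log (by norm_num)]
        norm_num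
      rw [this, Real.exp_le_exp]
      linarith
    have h12 : 3 / (ε / 4) ≤ Real.exp (5 * L) := by
      have h16 : Real.exp (5 * L) = (1 / ε) ^ 5 := by
        rw [← hexpL, ← Real.exp_nat_mul]
        norm_num
      rw [h16]
      have h5 : (16 : ℝ) ≤ (1 / ε) ^ 4 := by
        have h6 : (4 : ℝ) ≤ (1 / ε) ^ 2 := by nlinarith
        nlinarith
      have h7 : 3 / (ε / 4) = 12 * (1 / ε) := by
        field_simp
        norm_num
      rw [h7]
      have h8 : (1 / ε) ^ 5 = (1 / ε) ^ 4 * (1 / ε) := by ring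
      rw [h8]
      exact mul_le_mul_of_nonneg_right (by linarith) (by positivity)
    have hk : 4 * ((k : ℝ) + 1) ≤ 4 ^ (k + 1) := by
      have : k + 1 ≤ 4 ^ k := by
        have : k < 4 ^ k := Nat.lt_pow_self (by norm_num)
        omega
      have h9 : ((k : ℝ) + 1) ≤ 4 ^ k := by exact_mod_cast this
      rw [pow_succ]
      linarith
    calc 2 * (A : ℝ) ≤ 4 * ((k : ℝ) + 1) * (3 / (ε / 4)) ^ k := by
          push_cast at hA
          linarith
      _ ≤ Real.exp (2 * L) ^ (k + 1) * Real.exp (5 * L) ^ k := by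
          apply mul_le_mul (hk.trans (pow_le_pow_left₀ (by norm_num) h4 _))
            (pow_le_pow_left₀ (by positivity) h12 _) (by positivity) (by positivity)
      _ = Real.exp (2 * L * (k + 1) + 5 * L * k) := by
          rw [← Real.exp_nat_mul, ← Real.exp_nat_mul, ← Real.exp_add]
          congr 1
          push_cast
          ring
      _ < Real.exp (7 * ((k + 1 : ℕ) : ℝ) * L) := by
          rw [Real.exp_lt_exp]
          push_cast
          nlinarith
  -- the sample
  obtain ⟨G, hG⟩ := exists_sample (N := N) y hy (mm * ε / 8) (N * mm * (ε / 4)) (by positivity) (by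
    have h1 : Real.exp (7 * n * L) * Real.exp (N * (mm * ε / 8) ^ 2) ≤
        Real.exp (mm * ε / 8 * (N * mm * (ε / 4))) := by
      rw [← Real.exp_add, Real.exp_le_exp]
      have h2 : 448 * (n * L) ≤ N * (mm ^ 2 * ε ^ 2) := by
        have h3 := mul_le_mul_of_nonneg_right hNge (show 0 ≤ mm ^ 2 * ε ^ 2 by positivity)
        have h4 : 448 / mm ^ 2 * (n * (1 / ε) ^ 2 * L) * (mm ^ 2 * ε ^ 2) = 448 * (n * L) := by
          field_simp
        linarith
      nlinarith
    exact lt_of_lt_of_le (mul_lt_mul_of_pos_right hAbd (Real.exp_pos _)) h1)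
  refine ⟨N, fun j => (1 / (N * mm)) • G j, hNle, ?_⟩
  apply hS n A (Fin N) ε _ y hε hε2 hy hnet
  intro i
  have h1 : ∑ j, |⟪y i, (1 / (N * mm)) • G j⟫| = 1 / (N * mm) * ∑ j, |⟪y i, G j⟫| := by
    rw [Finset.mul_sum]
    apply Finset.sum_congr rfl
    intro j _
    rw [real_inner_smul_right, abs_mul, abs_of_pos (by positivity)]
  rw [h1]
  have h2 : 1 / (N * mm) * ∑ j, |⟪y i, G j⟫| - 1 =
      1 / (N * mm) * (∑ j, |⟪y i, G j⟫| - N * mm) := by
    field_simp
  rw [h2, abs_mul, abs_of_pos (by positivity : (0 : ℝ) < 1 / (N * mm))]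
  calc 1 / (N * mm) * |∑ j, |⟪y i, G j⟫| - N * mm| ≤ 1 / (N * mm) * (N * mm * (ε / 4)) :=
        mul_le_mul_of_nonneg_left (hG i) (by positivity)
    _ = ε / 4 := by
        field_simp

end Pool.Agent.E8helper67.ZU
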